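import Pool.Agent.H8.DI.Targets

/-!
# Two-variable logic with counting and special relations: the cells of the model
-/

set_option autoImplicit false

namespace Pool.Agent.H68.DI

open Pool.Agent.H69.Sp Pool.Agent.H69.Mt Pool.Agent.H16.TO Pool.Agent.H8.PL Pool.Agent.H8.DI

private lemma mo_ext {W H : ℕ} {v w : Mo W H} (hx : v.1.x = w.1.x) (hy : v.1.y = w.1.y)
    (hk : v.1.k = w.1.k) (hc : v.1.c = w.1.c) (hi : v.1.i = w.1.i) : v = w := by
  obtain ⟨⟨x, y, k, c, i⟩, hv⟩ := v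
  obtain ⟨⟨x', y', k', c', i'⟩, hw⟩ := w
  simp only at hx hy hk hc hi
  subst hx hy hk hc hi
  rfl

private def dl (j : Fin 4) (c : Bool) : ℕ :=
  if (j = 1 ∧ c = false) ∨ (j = 2 ∧ c = true) then 1 else 0

private lemma bl0 (x y : ℕ) : bl x y 0 false = x + 1 ∧ bl x y 0 true = y + 1 := by
  simp [bl]

private lemma step_down {a b i : ℕ} {j : Fin 4} {c : Bool} (hj : j ≠ 0) (hi : i < bl a b 0 c)
    (h1 : j = 1 → a ≠ 0 ∧ ¬ (c = false ∧ i = 0)) (h2 : j = 2 → b ≠ 0 ∧ ¬ (c = true ∧ i = 0)) :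
    ∃ i', i = i' + dl j c ∧ i' < bl a b j c := by
  have hjj : j = 1 ∨ j = 2 ∨ j = 3 := by
    clear h1 h2; revert hj; revert j; decide
  rcases hjj with rfl | rfl | rfl
  · obtain ⟨ha, hc⟩ := h1 rfl
    cases c
    · refine ⟨i - 1, ?_, ?_⟩
      · simp only [dl, and_self, true_or, if_true]
        have : i ≠ 0 := fun h => hc ⟨rfl, h⟩
        omega
      · have : i ≠ 0 := fun h => hc ⟨rfl, h⟩
        have e : bl a b 1 false = a := by simp [bl, ha]
        rw [e]; rw [(bl0 a b).1] at hi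
        omega
    · refine ⟨i, by simp [dl], ?_⟩
      have e : bl a b 1 true = b + 1 := by simp [bl, ha]
      rw [e]; rw [(bl0 a b).2] at hi
      exact hi
  · obtain ⟨hb, hc⟩ := h2 rfl
    cases c
    · refine ⟨i, by simp [dl], ?_⟩
      have e : bl a b 2 false = a + 1 := by simp [bl, hb]
      rw [e]; rw [(bl0 a b).1] at hi
      exact hi
    · refine ⟨i - 1, ?_, ?_⟩
      · simp only [dl, and_self, or_true, if_true]
        have : i ≠ 0 := fun h => hc ⟨rfl, h⟩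
        omega
      · have : i ≠ 0 := fun h => hc ⟨rfl, h⟩
        have e : bl a b 2 true = b := by simp [bl, hb]
        rw [e]; rw [(bl0 a b).2] at hi
        omega
  · refine ⟨i, by simp [dl], ?_⟩
    have e : bl a b 3 c = bl a b 0 c := by cases c <;> simp [bl]
    rw [e]
    exact hi

private lemma step_up {a b i : ℕ} {j : Fin 4} {c : Bool} (hj : j ≠ 0) (hi : i < bl a b j c) :
    i + dl j c < bl a b 0 c ∧ (j = 1 → a ≠ 0 ∧ ¬ (c = false ∧ i + dl j c = 0)) ∧
      (j = 2 → b ≠ 0 ∧ ¬ (c = true ∧ i + dl j c = 0)) := by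
  have hjj : j = 1 ∨ j = 2 ∨ j = 3 := by
    clear hi; revert hj; revert j; decide
  rcases hjj with rfl | rfl | rfl
  · have ha : a ≠ 0 := by
      rintro rfl
      simp [bl] at hi
    refine ⟨?_, fun _ => ⟨ha, ?_⟩, fun h => absurd h (by decide)⟩
    · cases c
      · have e : bl a b 1 false = a := by simp [bl, ha]
        rw [(bl0 a b).1]; rw [e] at hi
        simp only [dl, and_self, true_or, if_true]
        omega
      · have e : bl a b 1 true = b + 1 := by simp [bl, ha]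
        rw [(bl0 a b).2]; rw [e] at hi
        simpa [dl] using hi
    · rintro ⟨rfl, h⟩
      simp [dl] at h
  · have hb : b ≠ 0 := by
      rintro rfl
      simp [bl] at hi
    refine ⟨?_, fun h => absurd h (by decide), fun _ => ⟨hb, ?_⟩⟩
    · cases c
      · have e : bl a b 2 false = a + 1 := by simp [bl, hb]
        rw [(bl0 a b).1]; rw [e] at hi
        simpa [dl] using hi
      · have e : bl a b 2 true = b := by simp [bl, hb]
        rw [(bl0 a b).2]; rw [e] at hi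
        simp only [dl, and_self, or_true, if_true]
        omega
    · rintro ⟨rfl, h⟩
      simp [dl] at h
  · refine ⟨?_, fun h => absurd h (by decide), fun h => absurd h (by decide)⟩
    have e : bl a b 3 c = bl a b 0 c := by cases c <;> simp [bl]
    rw [e] at hi
    simpa [dl] using hi

/-- the cells of the model -/
theorem pf_mc : K_MC := by
  intro Q U Hh Vv W H t hW hH hG
  obtain ⟨hU, -, -⟩ := hG
  refine ⟨?_, ?_, ?_, ?_, ?_, ?_, ?_, ?_, ?_, ?_, ?_⟩
  · exact ⟨fun x => ⟨rfl, rfl⟩, fun h => ⟨h.1.symm, h.2.symm⟩,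
      fun h h' => ⟨h.1.trans h'.1, h.2.trans h'.2⟩⟩
  · rintro v w ⟨hx, hy⟩
    simp only [Same, H8.DI.stM, hx, hy, and_self]
  · intro v c
    have hb : 0 < bl v.1.x v.1.y 0 c := by
      cases c
      · rw [(bl0 _ _).1]; omega
      · rw [(bl0 _ _).2]; omega
    refine ⟨⟨⟨v.1.x, v.1.y, 0, c, 0⟩, v.2.1, v.2.2.1, hb⟩, ⟨⟨rfl, rfl⟩, rfl, rfl, ?_⟩, ?_⟩
    · simp [H8.DI.stM]
    · rintro w ⟨⟨hx, hy⟩, hk, hc, hz⟩
      have hz' : w.1.i = 0 := by simpa [H8.DI.stM] using hz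
      exact mo_ext hx.symm hy.symm hk hc hz'
  · intro j hj v hv
    obtain ⟨hk, h1, h2⟩ := hv
    have hk' : v.1.k = 0 := hk
    have hi : v.1.i < bl v.1.x v.1.y 0 v.1.c := by
      have := v.2.2.2
      rwa [hk'] at this
    obtain ⟨i', hi', hb⟩ := step_down (j := j) hj hi
      (fun h => by
        obtain ⟨ha, hc⟩ := h1 h
        refine ⟨?_, ?_⟩
        · simpa [H8.DI.stM] using ha
        · intro hh
          apply hc
          simpa [H8.DI.stM] using hh)
      (fun h => by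
        obtain ⟨ha, hc⟩ := h2 h
        refine ⟨?_, ?_⟩
        · simpa [H8.DI.stM] using ha
        · intro hh
          apply hc
          simpa [H8.DI.stM] using hh)
    refine ⟨⟨⟨v.1.x, v.1.y, j, v.1.c, i'⟩, v.2.1, v.2.2.1, hb⟩,
      ⟨⟨rfl, rfl⟩, ⟨hk', rfl, hi'⟩, rfl, rfl⟩, ?_⟩
    rintro w ⟨⟨hx, hy⟩, ⟨-, hc, hii⟩, hkw, -⟩
    have hkw' : w.1.k = j := hkw
    refine mo_ext hx.symm hy.symm hkw' hc.symm ?_
    have h3 : v.1.i = w.1.i + dl j v.1.c := by
      rw [hii, hkw', hc, dl]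
    show w.1.i = i'
    omega
  · intro j hj w hw
    have hk' : w.1.k = j := hw
    have hi : w.1.i < bl w.1.x w.1.y j w.1.c := by
      have := w.2.2.2
      rwa [hk'] at this
    obtain ⟨hb, h1, h2⟩ := step_up (j := j) hj hi
    refine ⟨⟨⟨w.1.x, w.1.y, 0, w.1.c, w.1.i + dl j w.1.c⟩, w.2.1, w.2.2.1, hb⟩,
      ⟨⟨rfl, rfl⟩, ⟨rfl, rfl, ?_⟩, ⟨rfl, ?_, ?_⟩, rfl⟩, ?_⟩
    · show w.1.i + dl j w.1.c = _
      rw [hk', dl]
    · intro h
      obtain ⟨ha, hc⟩ := h1 h
      refine ⟨?_, ?_⟩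
      · simpa [H8.DI.stM] using ha
      · intro hh
        apply hc
        simpa [H8.DI.stM] using hh
    · intro h
      obtain ⟨ha, hc⟩ := h2 h
      refine ⟨?_, ?_⟩
      · simpa [H8.DI.stM] using ha
      · intro hh
        apply hc
        simpa [H8.DI.stM] using hh
    · rintro v ⟨⟨hx, hy⟩, ⟨hk0, hc, hii⟩, -, -⟩
      refine mo_ext hx hy hk0 hc ?_
      show v.1.i = w.1.i + dl j w.1.c
      rw [hii, hk', dl]
  · intro v hk hc hx
    have hk' : v.1.k = 0 := hk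
    have hc' : v.1.c = false := hc
    have hx' : v.1.x = 0 := by simpa [H8.DI.stM] using hx
    have hi := v.2.2.2
    rw [hk', hc', (bl0 _ _).1, hx'] at hi
    have : v.1.i = 0 := by omega
    simp [H8.DI.stM, this]
  · intro v hx
    have hx' : v.1.x ≠ 0 := by simpa [H8.DI.stM] using hx
    refine ⟨⟨⟨v.1.x, v.1.y, 0, false, 1⟩, v.2.1, v.2.2.1, ?_⟩, ⟨rfl, rfl⟩, rfl, rfl, ?_⟩
    · show 1 < bl v.1.x v.1.y 0 false
      rw [(bl0 _ _).1]; omega
    · simp [H8.DI.stM]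
  · intro v hk hc hx
    have hk' : v.1.k = 0 := hk
    have hc' : v.1.c = true := hc
    have hx' : v.1.y = 0 := by simpa [H8.DI.stM] using hx
    have hi := v.2.2.2
    rw [hk', hc', (bl0 _ _).2, hx'] at hi
    have : v.1.i = 0 := by omega
    simp [H8.DI.stM, this]
  · intro v hx
    have hx' : v.1.y ≠ 0 := by simpa [H8.DI.stM] using hx
    refine ⟨⟨⟨v.1.x, v.1.y, 0, true, 1⟩, v.2.1, v.2.2.1, ?_⟩, ⟨rfl, rfl⟩, rfl, rfl, ?_⟩
    · show 1 < bl v.1.x v.1.y 0 true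
      rw [(bl0 _ _).2]; omega
    · simp [H8.DI.stM]
  · intro v
    exact hU v.1.x v.2.1 v.1.y v.2.2.1
  · refine ⟨⟨⟨0, 0, 0, false, 0⟩, hW, hH, ?_⟩, ⟨⟨rfl, rfl, ?_⟩, ?_, ?_⟩, ?_⟩
    · show 0 < bl 0 0 0 false
      rw [(bl0 _ _).1]; omega
    · simp [H8.DI.stM]
    · simp [H8.DI.stM]
    · simp [H8.DI.stM]
    · rintro w ⟨⟨hk, hc, hz⟩, hx, hy⟩
      have hz' : w.1.i = 0 := by simpa [H8.DI.stM] using hz
      have hx' : w.1.x = 0 := by simpa [H8.DI.stM] using hx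
      have hy' : w.1.y = 0 := by simpa [H8.DI.stM] using hy
      exact mo_ext hx' hy' hk hc hz'

end Pool.Agent.H68.DI
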