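import Pool.Agent.H8.DI.Targets

/-!
# Two-variable logic with counting and special relations: the links of the model
-/

set_option autoImplicit false

namespace Pool.Agent.H68.DI

open Pool.Agent.H69.Sp Pool.Agent.H69.Mt Pool.Agent.H16.TO Pool.Agent.H8.PL Pool.Agent.H8.DI

private lemma mo_ext {W H : ℕ} {v w : Mo W H} (hx : v.1.x = w.1.x) (hy : v.1.y = w.1.y)
    (hk : v.1.k = w.1.k) (hc : v.1.c = w.1.c) (hi : v.1.i = w.1.i) : v = w := by
  obtain ⟨⟨x, y, k, c, i⟩, hv⟩ := v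
  obtain ⟨⟨x', y', k', c', i'⟩, hw⟩ := w
  simp only at hx hy hk hc hi
  subst hx hy hk hc hi
  rfl

private lemma x_pos {W H : ℕ} (v : Mo W H) (h : v.1.k = 1) : v.1.x ≠ 0 := by
  intro hx
  have := v.2.2.2
  rw [h, hx] at this
  simp [bl] at this

private lemma y_pos {W H : ℕ} (v : Mo W H) (h : v.1.k = 2) : v.1.y ≠ 0 := by
  intro hx
  have := v.2.2.2
  rw [h, hx] at this
  simp [bl] at this

private lemma bl0 (x y : ℕ) (c : Bool) : bl x y 0 c = if c then y + 1 else x + 1 := by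
  simp [bl]

private lemma bl1 (x y : ℕ) (c : Bool) : bl (x + 1) y 1 c = bl x y 0 c := by
  simp [bl]

private lemma bl2 (x y : ℕ) (c : Bool) : bl x (y + 1) 2 c = bl x y 0 c := by
  simp [bl]

private lemma cx0 {W H : ℕ} {v : Mo W H} (h : v.1.k = 0) : cx v = v.1.x := by
  simp [cx, h]

private lemma cy0 {W H : ℕ} {v : Mo W H} (h : v.1.k = 0) : cy v = v.1.y := by
  simp [cy, h]

private lemma cx1 {W H : ℕ} {v : Mo W H} (h : v.1.k = 1) : cx v + 1 = v.1.x := by
  have := x_pos v h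
  simp only [cx, h, if_true]
  omega

private lemma cy1 {W H : ℕ} {v : Mo W H} (h : v.1.k = 1) : cy v = v.1.y := by
  simp [cy, h]

private lemma cx2 {W H : ℕ} {v : Mo W H} (h : v.1.k = 2) : cx v = v.1.x := by
  simp [cx, h]

private lemma cy2 {W H : ℕ} {v : Mo W H} (h : v.1.k = 2) : cy v + 1 = v.1.y := by
  have := y_pos v h
  simp only [cy, h, if_true]
  omega

private lemma cx_lt {W H : ℕ} (v : Mo W H) : cx v < W := by
  have := v.2.1
  unfold cx
  split_ifs <;> omega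

private lemma cy_lt {W H : ℕ} (v : Mo W H) : cy v < H := by
  have := v.2.2.1
  unfold cy
  split_ifs <;> omega

/-- the links of the model -/
theorem pf_ml : K_ML := by
  intro Q U Hh Vv W H t hW hH hG
  obtain ⟨-, hHh, hVv⟩ := hG
  refine ⟨?_, ?_, ?_, ?_, ?_, ?_, ?_⟩
  · exact ⟨fun x => ⟨rfl, rfl⟩, fun h => ⟨h.1.symm, h.2.symm⟩,
      fun h h' => ⟨h.1.trans h'.1, h.2.trans h'.2⟩⟩
  · intro v w hk
    have hk' : v.1.k = w.1.k := hk
    have h4 : w.1.k = 1 ∨ w.1.k = 2 ∨ (w.1.k ≠ 1 ∧ w.1.k ≠ 2) := by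
      by_cases h1 : w.1.k = 1
      · exact Or.inl h1
      · by_cases h2 : w.1.k = 2
        · exact Or.inr (Or.inl h2)
        · exact Or.inr (Or.inr ⟨h1, h2⟩)
    rcases h4 with h | h | ⟨h, h'⟩
    · have hv : v.1.k = 1 := hk'.trans h
      have a1 := cx1 h
      have a2 := cx1 hv
      have a3 := cy1 h
      have a4 := cy1 hv
      constructor
      · rintro ⟨hx, hy⟩
        exact ⟨by omega, by omega⟩
      · rintro ⟨hx, hy⟩
        exact ⟨by omega, by omega⟩
    · have hv : v.1.k = 2 := hk'.trans h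
      have a1 := cx2 h
      have a2 := cx2 hv
      have a3 := cy2 h
      have a4 := cy2 hv
      constructor
      · rintro ⟨hx, hy⟩
        exact ⟨by omega, by omega⟩
      · rintro ⟨hx, hy⟩
        exact ⟨by omega, by omega⟩
    · have hv : v.1.k ≠ 1 := by rw [hk']; exact h
      have hv' : v.1.k ≠ 2 := by rw [hk']; exact h'
      simp only [eM, fM, cx, cy, h, h', hv, hv', if_false]
  · intro w
    refine ⟨⟨⟨cx w, cy w, 0, false, 0⟩, cx_lt w, cy_lt w, ?_⟩, ⟨?_, ?_⟩, rfl⟩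
    · show 0 < bl (cx w) (cy w) 0 false
      rw [bl0]; simp
    · exact cx0 rfl
    · exact cy0 rfl
  · rintro j hj v ⟨hk, h1, h2⟩
    have hk' : v.1.k = 0 := hk
    have hi : v.1.i < bl v.1.x v.1.y 0 v.1.c := by
      have := v.2.2.2
      rwa [hk'] at this
    have e1 := cx0 hk'
    have e2 := cy0 hk'
    rcases hj with rfl | rfl
    · have hx : v.1.x + 1 ≠ W := by simpa [H8.DI.stM] using h1 rfl
      have hx' : v.1.x + 1 < W := by
        have := v.2.1
        omega
      let w : Mo W H := ⟨⟨v.1.x + 1, v.1.y, 1, v.1.c, v.1.i⟩, hx', v.2.2.1, by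
        show v.1.i < bl (v.1.x + 1) v.1.y 1 v.1.c
        rw [bl1]; exact hi⟩
      have f1 : cx w + 1 = v.1.x + 1 := cx1 (v := w) rfl
      have f2 : cy w = v.1.y := cy1 (v := w) rfl
      have hF : fM v w := ⟨by omega, by omega⟩
      refine ⟨w, ⟨hF, ⟨hF, rfl, rfl⟩, rfl, rfl⟩, ?_⟩
      rintro u ⟨⟨g1, g2⟩, ⟨-, g3, g4⟩, g5, -⟩
      have g5' : u.1.k = 1 := g5
      have a1 := cx1 g5'
      have a2 := cy1 g5'
      refine mo_ext ?_ ?_ g5' g3.symm g4.symm
      · show u.1.x = v.1.x + 1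
        omega
      · show u.1.y = v.1.y
        omega
    · have hx : v.1.y + 1 ≠ H := by simpa [H8.DI.stM] using h2 rfl
      have hx' : v.1.y + 1 < H := by
        have := v.2.2.1
        omega
      let w : Mo W H := ⟨⟨v.1.x, v.1.y + 1, 2, v.1.c, v.1.i⟩, v.2.1, hx', by
        show v.1.i < bl v.1.x (v.1.y + 1) 2 v.1.c
        rw [bl2]; exact hi⟩
      have f1 : cx w = v.1.x := cx2 (v := w) rfl
      have f2 : cy w + 1 = v.1.y + 1 := cy2 (v := w) rfl
      have hF : fM v w := ⟨by omega, by omega⟩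
      refine ⟨w, ⟨hF, ⟨hF, rfl, rfl⟩, rfl, rfl⟩, ?_⟩
      rintro u ⟨⟨g1, g2⟩, ⟨-, g3, g4⟩, g5, -⟩
      have g5' : u.1.k = 2 := g5
      have a1 := cx2 g5'
      have a2 := cy2 g5'
      refine mo_ext ?_ ?_ g5' g3.symm g4.symm
      · show u.1.x = v.1.x
        omega
      · show u.1.y = v.1.y + 1
        omega
  · intro j hj w hk
    have hk' : w.1.k = j := hk
    have hi : w.1.i < bl (cx w) (cy w) 0 w.1.c := by
      have := w.2.2.2
      rcases hj with rfl | rfl
      · rw [hk', ← cx1 hk', bl1, ← cy1 hk'] at this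
        exact this
      · rw [hk', ← cy2 hk', bl2, ← cx2 hk'] at this
        exact this
    let v : Mo W H := ⟨⟨cx w, cy w, 0, w.1.c, w.1.i⟩, cx_lt w, cy_lt w, hi⟩
    have f1 : cx v = cx w := cx0 (v := v) rfl
    have f2 : cy v = cy w := cy0 (v := v) rfl
    have hF : fM v w := ⟨f1, f2⟩
    refine ⟨v, ⟨hF, ⟨hF, rfl, rfl⟩, ⟨rfl, ?_, ?_⟩, rfl⟩, ?_⟩
    · rintro rfl
      have a1 := cx1 hk'
      have a2 := w.2.1
      have a3 : cx w + 1 ≠ W := by omega
      simpa [H8.DI.stM] using a3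
    · rintro rfl
      have a1 := cy2 hk'
      have a2 := w.2.2.1
      have a3 : cy w + 1 ≠ H := by omega
      simpa [H8.DI.stM] using a3
    · rintro u ⟨⟨g1, g2⟩, ⟨-, g3, g4⟩, ⟨g5, -, -⟩, -⟩
      have g5' : u.1.k = 0 := g5
      have a1 := cx0 g5'
      have a2 := cy0 g5'
      refine mo_ext ?_ ?_ g5' g3 g4
      · show u.1.x = cx w
        omega
      · show u.1.y = cy w
        omega
  · rintro v w ⟨g1, g2⟩ - hv hw
    have hv' : v.1.k = 0 := hv
    have hw' : w.1.k = 1 := hw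
    have a1 := cx0 hv'
    have a2 := cy0 hv'
    have a3 := cx1 hw'
    have a4 := cy1 hw'
    have hx : w.1.x = v.1.x + 1 := by omega
    have hy : w.1.y = v.1.y := by omega
    have hlt : v.1.x + 1 < W := by
      have := w.2.1
      omega
    have h := hHh v.1.x v.1.y hlt v.2.2.1
    refine ⟨?_, ?_, ?_⟩
    · show Hh (t v.1.x v.1.y) (t w.1.x w.1.y)
      rw [hx, hy]
      exact h
    · show decide (w.1.y = 0) = decide (v.1.y = 0)
      rw [hy]
    · show decide (w.1.y + 1 = H) = decide (v.1.y + 1 = H)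
      rw [hy]
  · rintro v w ⟨g1, g2⟩ - hv hw
    have hv' : v.1.k = 0 := hv
    have hw' : w.1.k = 2 := hw
    have a1 := cx0 hv'
    have a2 := cy0 hv'
    have a3 := cx2 hw'
    have a4 := cy2 hw'
    have hx : w.1.x = v.1.x := by omega
    have hy : w.1.y = v.1.y + 1 := by omega
    have hlt : v.1.y + 1 < H := by
      have := w.2.2.1
      omega
    have h := hVv v.1.x v.1.y v.2.1 hlt
    refine ⟨?_, ?_, ?_⟩
    · show Vv (t v.1.x v.1.y) (t w.1.x w.1.y)
      rw [hx, hy]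
      exact h
    · show decide (w.1.x = 0) = decide (v.1.x = 0)
      rw [hx]
    · show decide (w.1.x + 1 = W) = decide (v.1.x + 1 = W)
      rw [hx]

end Pool.Agent.H68.DI
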