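import Pool.Agent.H8.DI.Targets

/-!
# Two-variable logic with counting and special relations: sizes of the blocks of a cell
-/

set_option autoImplicit false

namespace Pool.Agent.H68.DI

open Pool.Agent.H69.Sp Pool.Agent.H69.Mt Pool.Agent.H16.TO Pool.Agent.H8.PL Pool.Agent.H8.DI

private lemma ncard_rel {V : Type} (S T : Set V) (R : V → V → Prop)
    (h1 : ∀ s ∈ S, ∃! t, t ∈ T ∧ R s t) (h2 : ∀ t ∈ T, ∃! s, s ∈ S ∧ R s t) :
    S.ncard = T.ncard := by
  refine Set.ncard_congr (fun a ha => (h1 a ha).choose) ?_ ?_ ?_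
  · intro a ha
    exact (h1 a ha).choose_spec.1.1
  · intro a b ha hb hab
    have ea := (h1 a ha).choose_spec.1
    have eb := (h1 b hb).choose_spec.1
    have hab' : (h1 a ha).choose = (h1 b hb).choose := hab
    rw [← hab'] at eb
    exact (h2 _ ea.1).unique ⟨ha, ea.2⟩ ⟨hb, eb.2⟩
  · intro b hb
    obtain ⟨a, ⟨ha, hr⟩, -⟩ := h2 b hb
    exact ⟨a, ha, (h1 a ha).unique (h1 a ha).choose_spec.1 ⟨hb, hr⟩⟩

private lemma total {V : Type} [Finite V] (p : V → Prop) (k : V → Fin 4) (c : V → Bool) :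
    {y | p y}.ncard = ∑ a : Fin 4, ∑ b : Bool, {y | p y ∧ k y = a ∧ c y = b}.ncard := by
  classical
  have : Fintype V := Fintype.ofFinite V
  have e : ∀ q : V → Prop, {y | q y}.ncard = (Finset.univ.filter q).card := by
    intro q
    rw [← Set.ncard_coe_finset]
    congr 1
    ext y
    simp
  rw [e]
  rw [Finset.card_eq_sum_card_fiberwise (f := fun y => (k y, c y))
    (t := (Finset.univ : Finset (Fin 4 × Bool))) (fun y _ => Finset.mem_coe.mpr (Finset.mem_univ _))]
  rw [Fintype.sum_prod_type]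
  refine Finset.sum_congr rfl fun a _ => Finset.sum_congr rfl fun b _ => ?_
  rw [e, Finset.filter_filter]
  congr 1
  ext y
  simp [Prod.ext_iff]

/-- sizes of the blocks of a cell -/
theorem pf_cb : K_CB := by
  intro V Q _ U st E M h x
  have hE := h.eqv
  have hfin : ∀ S : Set V, S.Finite := fun S => Set.toFinite S
  -- matchings
  have hbij : ∀ (j : Fin 4) (c : Bool), j ≠ 0 →
      {y | E x y ∧ src j (st y) ∧ (st y).c = c}.ncard =
        {y | E x y ∧ (st y).k = j ∧ (st y).c = c}.ncard := by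
    intro j c hj
    refine ncard_rel _ _ M ?_ ?_
    · rintro s ⟨hxs, hs, hc⟩
      obtain ⟨y, ⟨g1, g2, g3, g4⟩, hu⟩ := h.mat j hj s hs
      refine ⟨y, ⟨⟨hE.trans hxs g1, g3, g4.trans hc⟩, g2⟩, ?_⟩
      rintro w ⟨⟨k1, k2, k3⟩, k4⟩
      exact hu w ⟨hE.trans (hE.symm hxs) k1, k4, k2, k3.trans hc.symm⟩
    · rintro y ⟨hxy, hk, hc⟩
      obtain ⟨s, ⟨g1, g2, g3, g4⟩, hu⟩ := h.mat' j hj y hk
      refine ⟨s, ⟨⟨hE.trans hxy (hE.symm g1), g3, g4.trans hc⟩, g2⟩, ?_⟩
      rintro w ⟨⟨k1, k2, k3⟩, k4⟩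
      exact hu w ⟨hE.trans (hE.symm k1) hxy, k4, k2, k3.trans hc.symm⟩
  -- the first items
  obtain ⟨zf, ⟨zf1, zf2, zf3, zf4⟩, zfu⟩ := h.one x false
  obtain ⟨zt, ⟨zt1, zt2, zt3, zt4⟩, ztu⟩ := h.one x true
  have hzf : zf ∈ {y | E x y ∧ (st y).k = 0 ∧ (st y).c = false} := ⟨zf1, zf2, zf3⟩
  have hzt : zt ∈ {y | E x y ∧ (st y).k = 0 ∧ (st y).c = true} := ⟨zt1, zt2, zt3⟩
  have ha1 : 1 ≤ al st E x := (Set.ncard_pos (hfin _)).mpr ⟨zf, hzf⟩
  have hb1 : 1 ≤ be st E x := (Set.ncard_pos (hfin _)).mpr ⟨zt, hzt⟩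
  have hfx : (st x).fx = true ↔ al st E x = 1 := by
    constructor
    · intro hx
      have : {y | E x y ∧ (st y).k = 0 ∧ (st y).c = false} = {zf} := by
        ext y
        constructor
        · rintro ⟨g1, g2, g3⟩
          have hy : (st y).fx = true := by rw [← (h.same x y g1).1]; exact hx
          exact zfu y ⟨g1, g2, g3, h.fx1 y g2 g3 hy⟩
        · intro hy
          rw [Set.mem_singleton_iff] at hy
          rw [hy]; exact hzf
      rw [al, this, Set.ncard_singleton]
    · intro hx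
      by_contra hne
      have hx0 : (st x).fx = false := by simpa using hne
      obtain ⟨y, g1, g2, g3, g4⟩ := h.fx0 x hx0
      have hle : zf = y := ((Set.ncard_le_one_iff
        (hfin {y | E x y ∧ (st y).k = 0 ∧ (st y).c = false})).mp (le_of_eq hx)) hzf ⟨g1, g2, g3⟩
      rw [← hle, zf4] at g4
      exact Bool.noConfusion g4
  have hfy : (st x).fy = true ↔ be st E x = 1 := by
    constructor
    · intro hx
      have : {y | E x y ∧ (st y).k = 0 ∧ (st y).c = true} = {zt} := by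
        ext y
        constructor
        · rintro ⟨g1, g2, g3⟩
          have hy : (st y).fy = true := by rw [← (h.same x y g1).2.2.1]; exact hx
          exact ztu y ⟨g1, g2, g3, h.fy1 y g2 g3 hy⟩
        · intro hy
          rw [Set.mem_singleton_iff] at hy
          rw [hy]; exact hzt
      rw [be, this, Set.ncard_singleton]
    · intro hx
      by_contra hne
      have hx0 : (st x).fy = false := by simpa using hne
      obtain ⟨y, g1, g2, g3, g4⟩ := h.fy0 x hx0
      have hle : zt = y := ((Set.ncard_le_one_iff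
        (hfin {y | E x y ∧ (st y).k = 0 ∧ (st y).c = true})).mp (le_of_eq hx)) hzt ⟨g1, g2, g3⟩
      rw [← hle, zt4] at g4
      exact Bool.noConfusion g4
  -- the sources
  have s3 : ∀ c, {y | E x y ∧ src 3 (st y) ∧ (st y).c = c} =
      {y | E x y ∧ (st y).k = 0 ∧ (st y).c = c} := by
    intro c
    ext y
    constructor
    · rintro ⟨g1, ⟨g2, -, -⟩, g3⟩
      exact ⟨g1, g2, g3⟩
    · rintro ⟨g1, g2, g3⟩
      exact ⟨g1, ⟨g2, fun hh => absurd hh (by decide), fun hh => absurd hh (by decide)⟩, g3⟩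
  have hx1 : (st x).fx = false →
      {y | E x y ∧ src 1 (st y) ∧ (st y).c = true} = {y | E x y ∧ (st y).k = 0 ∧ (st y).c = true} ∧
      {y | E x y ∧ src 1 (st y) ∧ (st y).c = false} =
        {y | E x y ∧ (st y).k = 0 ∧ (st y).c = false} \ {zf} := by
    intro hx
    constructor
    · ext y
      constructor
      · rintro ⟨g1, ⟨g2, -, -⟩, g3⟩
        exact ⟨g1, g2, g3⟩
      · rintro ⟨g1, g2, g3⟩
        refine ⟨g1, ⟨g2, fun _ => ⟨?_, ?_⟩, fun hh => absurd hh (by decide)⟩, g3⟩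
        · rw [← (h.same x y g1).1]; exact hx
        · rintro ⟨hc, -⟩
          rw [g3] at hc
          exact Bool.noConfusion hc
    · ext y
      constructor
      · rintro ⟨g1, ⟨g2, g4, -⟩, g3⟩
        refine ⟨⟨g1, g2, g3⟩, ?_⟩
        intro hy
        rw [Set.mem_singleton_iff] at hy
        rw [hy] at g4
        exact (g4 rfl).2 ⟨zf3, zf4⟩
      · rintro ⟨⟨g1, g2, g3⟩, g4⟩
        refine ⟨g1, ⟨g2, fun _ => ⟨?_, ?_⟩, fun hh => absurd hh (by decide)⟩, g3⟩
        · rw [← (h.same x y g1).1]; exact hx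
        · rintro ⟨-, hz⟩
          exact g4 (Set.mem_singleton_iff.mpr (zfu y ⟨g1, g2, g3, hz⟩))
  have hy1 : (st x).fy = false →
      {y | E x y ∧ src 2 (st y) ∧ (st y).c = false} =
        {y | E x y ∧ (st y).k = 0 ∧ (st y).c = false} ∧
      {y | E x y ∧ src 2 (st y) ∧ (st y).c = true} =
        {y | E x y ∧ (st y).k = 0 ∧ (st y).c = true} \ {zt} := by
    intro hx
    constructor
    · ext y
      constructor
      · rintro ⟨g1, ⟨g2, -, -⟩, g3⟩
        exact ⟨g1, g2, g3⟩
      · rintro ⟨g1, g2, g3⟩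
        refine ⟨g1, ⟨g2, fun hh => absurd hh (by decide), fun _ => ⟨?_, ?_⟩⟩, g3⟩
        · rw [← (h.same x y g1).2.2.1]; exact hx
        · rintro ⟨hc, -⟩
          rw [g3] at hc
          exact Bool.noConfusion hc
    · ext y
      constructor
      · rintro ⟨g1, ⟨g2, -, g4⟩, g3⟩
        refine ⟨⟨g1, g2, g3⟩, ?_⟩
        intro hy
        rw [Set.mem_singleton_iff] at hy
        rw [hy] at g4
        exact (g4 rfl).2 ⟨zt3, zt4⟩
      · rintro ⟨⟨g1, g2, g3⟩, g4⟩
        refine ⟨g1, ⟨g2, fun hh => absurd hh (by decide), fun _ => ⟨?_, ?_⟩⟩, g3⟩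
        · rw [← (h.same x y g1).2.2.1]; exact hx
        · rintro ⟨-, hz⟩
          exact g4 (Set.mem_singleton_iff.mpr (ztu y ⟨g1, g2, g3, hz⟩))
  have hX : (st x).fx = false →
      {y | E x y ∧ (st y).k = 1 ∧ (st y).c = false}.ncard + 1 = al st E x ∧
      {y | E x y ∧ (st y).k = 1 ∧ (st y).c = true}.ncard = be st E x := by
    intro hx
    rw [← hbij 1 false (by decide), ← hbij 1 true (by decide), (hx1 hx).1, (hx1 hx).2]
    exact ⟨Set.ncard_sdiff_singleton_add_one hzf (hfin _), rfl⟩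
  have hY : (st x).fy = false →
      {y | E x y ∧ (st y).k = 2 ∧ (st y).c = false}.ncard = al st E x ∧
      {y | E x y ∧ (st y).k = 2 ∧ (st y).c = true}.ncard + 1 = be st E x := by
    intro hx
    rw [← hbij 2 false (by decide), ← hbij 2 true (by decide), (hy1 hx).1, (hy1 hx).2]
    exact ⟨rfl, Set.ncard_sdiff_singleton_add_one hzt (hfin _)⟩
  have hX' : (st x).fx = true → ∀ c,
      {y | E x y ∧ (st y).k = 1 ∧ (st y).c = c}.ncard = 0 := by
    intro hx c
    rw [← hbij 1 c (by decide), Set.ncard_eq_zero (hfin _)]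
    ext y
    simp only [Set.mem_empty_iff_false, iff_false]
    rintro ⟨g1, ⟨-, g4, -⟩, -⟩
    have := (g4 rfl).1
    rw [← (h.same x y g1).1, hx] at this
    exact Bool.noConfusion this
  have hY' : (st x).fy = true → ∀ c,
      {y | E x y ∧ (st y).k = 2 ∧ (st y).c = c}.ncard = 0 := by
    intro hx c
    rw [← hbij 2 c (by decide), Set.ncard_eq_zero (hfin _)]
    ext y
    simp only [Set.mem_empty_iff_false, iff_false]
    rintro ⟨g1, ⟨-, -, g4⟩, -⟩
    have := (g4 rfl).1
    rw [← (h.same x y g1).2.2.1, hx] at this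
    exact Bool.noConfusion this
  have h3f : {y | E x y ∧ (st y).k = 3 ∧ (st y).c = false}.ncard = al st E x := by
    rw [← hbij 3 false (by decide), s3]; rfl
  have h3t : {y | E x y ∧ (st y).k = 3 ∧ (st y).c = true}.ncard = be st E x := by
    rw [← hbij 3 true (by decide), s3]; rfl
  have h0f : {y | E x y ∧ (st y).k = 0 ∧ (st y).c = false}.ncard = al st E x := rfl
  have h0t : {y | E x y ∧ (st y).k = 0 ∧ (st y).c = true}.ncard = be st E x := rfl
  refine ⟨ha1, hb1, hfx, hfy, hX, hY, ?_⟩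
  rw [total (fun y => E x y) (fun y => (st y).k) (fun y => (st y).c)]
  simp only [Fin.sum_univ_four, Fintype.sum_bool]
  rw [h0f, h0t, h3f, h3t]
  unfold H8.DI.sz
  have hxv : (st x).fx = true ∨ (st x).fx = false := by cases (st x).fx <;> simp
  have hyv : (st x).fy = true ∨ (st x).fy = false := by cases (st x).fy <;> simp
  rcases hxv with hx | hx <;> rcases hyv with hy | hy
  · rw [if_pos (hfx.mp hx), if_pos (hfy.mp hy), hX' hx, hX' hx, hY' hy, hY' hy]
    omega
  · have hb : be st E x ≠ 1 := fun hh => by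
      rw [hfy.mpr hh] at hy
      exact Bool.noConfusion hy
    have := hY hy
    rw [if_pos (hfx.mp hx), if_neg hb, hX' hx, hX' hx]
    omega
  · have ha : al st E x ≠ 1 := fun hh => by
      rw [hfx.mpr hh] at hx
      exact Bool.noConfusion hx
    have := hX hx
    rw [if_neg ha, if_pos (hfy.mp hy), hY' hy, hY' hy]
    omega
  · have ha : al st E x ≠ 1 := fun hh => by
      rw [hfx.mpr hh] at hx
      exact Bool.noConfusion hx
    have hb : be st E x ≠ 1 := fun hh => by
      rw [hfy.mpr hh] at hy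
      exact Bool.noConfusion hy
    have := hX hx
    have := hY hy
    rw [if_neg ha, if_neg hb]
    omega

end Pool.Agent.H68.DI
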